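import Pool.Agent.D0H87.CQ.A7

open MeasureTheory

namespace Pool.Agent.Results.MP_b29168_gt.QuadBelowSqrtTwo

/-- There is an absolute constant c below the square root of 2 such that every plane convex set of
area one (no closedness or boundedness assumed) is contained in a convex quadrilateral, namely the
convex hull of four points, of area at most c. -/
theorem result : ∃ c : ℝ, c < Real.sqrt 2 ∧
    ∀ K : Set (ℝ × ℝ), Convex ℝ K → volume K = 1 →
      ∃ p q r s : ℝ × ℝ, K ⊆ convexHull ℝ {p, q, r, s} ∧
        volume (convexHull ℝ ({p, q, r, s} : Set (ℝ × ℝ))) ≤ ENNReal.ofReal c :=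
  Pool.Agent.D0H87.CQ.main

end Pool.Agent.Results.MP_b29168_gt.QuadBelowSqrtTwo
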